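import Pool.Agent.Lib.MP_1f45fc_nt.T.Assemble
import Pool.Agent.Lib.MP_1f45fc_nt.TreeB.B0
import Pool.Agent.Lib.MP_1f45fc_nt.TreeB.B1
import Pool.Agent.Lib.MP_1f45fc_nt.TreeB.B2
import Pool.Agent.Lib.MP_1f45fc_nt.TreeB.B3
import Pool.Agent.Lib.MP_1f45fc_nt.TreeB.B4
import Pool.Agent.Lib.MP_1f45fc_nt.TreeB.B5
import Pool.Agent.Lib.MP_1f45fc_nt.TreeB.B6
import Pool.Agent.Lib.MP_1f45fc_nt.TreeB.B7
import Pool.Agent.Lib.MP_1f45fc_nt.TreeB.B8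
import Pool.Agent.Lib.MP_1f45fc_nt.TreeB.B9
import Pool.Agent.Lib.MP_1f45fc_nt.TreeB.B10
import Pool.Agent.Lib.MP_1f45fc_nt.TreeB.B11
import Pool.Agent.Lib.MP_1f45fc_nt.TreeB.B12
import Pool.Agent.Lib.MP_1f45fc_nt.TreeB.B13
import Pool.Agent.Lib.MP_1f45fc_nt.TreeB.B14
import Pool.Agent.Lib.MP_1f45fc_nt.TreeB.BM

set_option autoImplicit false

namespace Pool.Agent.MP1f45fc.T.TreeB

def Bown : List Goal := [⟨[0, 0, 0, 0, 0, 0, 0, 0, 0, 0, 0, 0, 0, 0, 0, 0, 0, 0, 0, 0, 0, 0, 0, 0, 0, 0, 0, 0], 14, [0, 0, 0, 0, 0, 0, 0, 0, 0, 0, 0, 0, 0, 0, 0], 8618253967, 8703398820⟩]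

def BR : List Goal :=
  B0r ++
  (B1r ++
  (B2r ++
  (B3r ++
  (B4r ++
  (B5r ++
  (B6r ++
  (B7r ++
  (B8r ++
  (B9r ++
  (B10r ++
  (B11r ++
  (B12r ++
  (B13r ++
  (B14r))))))))))))))

def BC : List Goal :=
  B0o ++
  (B1o ++
  (B2o ++
  (B3o ++
  (B4o ++
  (B5o ++
  (B6o ++
  (B7o ++
  (B8o ++
  (B9o ++
  (B10o ++
  (B11o ++
  (B12o ++
  (B13o ++
  (B14o))))))))))))))

def Bouts : List Goal := Bown ++ BC

theorem B_groups : Imp 14 16 BR BC :=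
    Imp.app (Imp.of_check B0_ok (Or.inr rfl) le_rfl) (
    Imp.app (Imp.of_check B1_ok (Or.inr rfl) le_rfl) (
    Imp.app (Imp.of_check B2_ok (Or.inr rfl) le_rfl) (
    Imp.app (Imp.of_check B3_ok (Or.inr rfl) le_rfl) (
    Imp.app (Imp.of_check B4_ok (Or.inr rfl) le_rfl) (
    Imp.app (Imp.of_check B5_ok (Or.inr rfl) le_rfl) (
    Imp.app (Imp.of_check B6_ok (Or.inr rfl) le_rfl) (
    Imp.app (Imp.of_check B7_ok (Or.inr rfl) le_rfl) (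
    Imp.app (Imp.of_check B8_ok (Or.inr rfl) le_rfl) (
    Imp.app (Imp.of_check B9_ok (Or.inr rfl) le_rfl) (
    Imp.app (Imp.of_check B10_ok (Or.inr rfl) le_rfl) (
    Imp.app (Imp.of_check B11_ok (Or.inr rfl) le_rfl) (
    Imp.app (Imp.of_check B12_ok (Or.inr rfl) le_rfl) (
    Imp.app (Imp.of_check B13_ok (Or.inr rfl) le_rfl) (
    Imp.of_check B14_ok (Or.inr rfl) le_rfl))))))))))))))

theorem B_imp : Imp 14 16 BMr Bouts :=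
  (Imp.of_check BM_ok (Or.inr rfl) le_rfl).glue B_groups (by decide +kernel)

end Pool.Agent.MP1f45fc.T.TreeB
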